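import Pool.Agent.H6.TP.Targets

/-!
# The small values of a generic wave
-/

set_option autoImplicit false

open Finset Pool.Agent.H6.N4D Pool.Agent.H6.TP

namespace Pool.Agent.H10.TP

/-- the test function -/
noncomputable def tf (ρ x : ℝ) : ℝ := min 1 (max 0 (2 - |Real.cos (2 * Real.pi * x)| / ρ))

theorem tf_cont (ρ : ℝ) : Continuous (tf ρ) := by
  unfold tf
  fun_prop

theorem tf_per (ρ x : ℝ) : tf ρ (x + 1) = tf ρ x := by
  unfold tf
  have : 2 * Real.pi * (x + 1) = 2 * Real.pi * x + 2 * Real.pi := by ring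
  rw [this, Real.cos_add_two_pi]

theorem tf_nonneg (ρ x : ℝ) : 0 ≤ tf ρ x := le_min zero_le_one (le_max_left _ _)

theorem tf_le_one (ρ x : ℝ) : tf ρ x ≤ 1 := min_le_left _ _

theorem tf_one {ρ x : ℝ} (hρ : 0 < ρ) (h : |Real.cos (2 * Real.pi * x)| ≤ ρ) : tf ρ x = 1 := by
  unfold tf
  have h1 : |Real.cos (2 * Real.pi * x)| / ρ ≤ 1 := (div_le_one hρ).2 h
  exact min_eq_left (le_max_of_le_right (by linarith))

theorem tf_zero {ρ x : ℝ} (hρ : 0 < ρ) (h : 2 * ρ ≤ |Real.cos (2 * Real.pi * x)|) :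
    tf ρ x = 0 := by
  unfold tf
  have h1 : 2 ≤ |Real.cos (2 * Real.pi * x)| / ρ := (le_div_iff₀ hρ).2 h
  rw [max_eq_left (by linarith)]
  exact min_eq_right zero_le_one

theorem sin_lo {u : ℝ} (hu : |u| ≤ 1 / 4) : 4 * |u| ≤ |Real.sin (2 * Real.pi * u)| := by
  have hp := Real.pi_pos
  have h1 : |2 * Real.pi * u| = 2 * Real.pi * |u| := by
    rw [abs_mul, abs_of_pos (by positivity)]
  have h2 := Real.mul_abs_le_abs_sin (x := 2 * Real.pi * u) (by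
    rw [h1]; nlinarith)
  rw [h1] at h2
  refine le_trans (le_of_eq ?_) h2
  field_simp
  ring

theorem cos_lo1 {x : ℝ} (hx : |x - 1 / 4| ≤ 1 / 4) :
    4 * |x - 1 / 4| ≤ |Real.cos (2 * Real.pi * x)| := by
  have h := sin_lo hx
  have e : 2 * Real.pi * (x - 1 / 4) = 2 * Real.pi * x - Real.pi / 2 := by ring
  rwa [e, Real.sin_sub_pi_div_two, abs_neg] at h

theorem cos_lo3 {x : ℝ} (hx : |x - 3 / 4| ≤ 1 / 4) :
    4 * |x - 3 / 4| ≤ |Real.cos (2 * Real.pi * x)| := by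
  have h := sin_lo hx
  have e : 2 * Real.pi * (x - 3 / 4) = 2 * Real.pi * x - Real.pi / 2 - Real.pi := by ring
  rwa [e, Real.sin_sub_pi, Real.sin_sub_pi_div_two, neg_neg] at h

theorem tf_int_le {ρ a b c : ℝ} (hab : a ≤ b) (h : ∀ x ∈ Set.Icc a b, tf ρ x ≤ c) :
    ∫ x in a..b, tf ρ x ≤ c * (b - a) := by
  have h1 : ∫ x in a..b, tf ρ x ≤ ∫ _x in a..b, c :=
    intervalIntegral.integral_mono_on hab ((tf_cont ρ).intervalIntegrable _ _)
      (continuous_const.intervalIntegrable _ _) h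
  rw [intervalIntegral.integral_const, smul_eq_mul] at h1
  linarith

theorem tf_int {ρ : ℝ} (hρ : 0 < ρ) (hρ4 : ρ ≤ 1 / 4) : ∫ x in (0 : ℝ)..1, tf ρ x ≤ 2 * ρ := by
  have hi : ∀ a b : ℝ, IntervalIntegrable (tf ρ) MeasureTheory.volume a b := fun a b =>
    (tf_cont ρ).intervalIntegrable _ _
  rw [← intervalIntegral.integral_add_adjacent_intervals (hi 0 (1 / 4 - ρ / 2)) (hi _ 1),
    ← intervalIntegral.integral_add_adjacent_intervals (hi (1 / 4 - ρ / 2) (1 / 4 + ρ / 2))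
      (hi _ 1),
    ← intervalIntegral.integral_add_adjacent_intervals (hi (1 / 4 + ρ / 2) (3 / 4 - ρ / 2))
      (hi _ 1),
    ← intervalIntegral.integral_add_adjacent_intervals (hi (3 / 4 - ρ / 2) (3 / 4 + ρ / 2))
      (hi _ 1)]
  have h1 : ∫ x in (0 : ℝ)..(1 / 4 - ρ / 2), tf ρ x ≤ 0 * (1 / 4 - ρ / 2 - 0) := by
    refine tf_int_le (by linarith) fun x hx => le_of_eq (tf_zero hρ ?_)
    obtain ⟨hx1, hx2⟩ := hx
    have h2 : |x - 1 / 4| = 1 / 4 - x := by rw [abs_sub_comm, abs_of_nonneg (by linarith)]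
    have h3 := cos_lo1 (x := x) (by rw [h2]; linarith)
    rw [h2] at h3
    linarith
  have h2 : ∫ x in (1 / 4 - ρ / 2)..(1 / 4 + ρ / 2), tf ρ x ≤
      1 * ((1 / 4 + ρ / 2) - (1 / 4 - ρ / 2)) :=
    tf_int_le (by linarith) fun x _ => tf_le_one ρ x
  have h3 : ∫ x in (1 / 4 + ρ / 2)..(3 / 4 - ρ / 2), tf ρ x ≤
      0 * ((3 / 4 - ρ / 2) - (1 / 4 + ρ / 2)) := by
    refine tf_int_le (by linarith) fun x hx => le_of_eq (tf_zero hρ ?_)
    obtain ⟨hx1, hx2⟩ := hx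
    rcases le_total x (1 / 2) with h | h
    · have h2 : |x - 1 / 4| = x - 1 / 4 := abs_of_nonneg (by linarith)
      have h3 := cos_lo1 (x := x) (by rw [h2]; linarith)
      rw [h2] at h3
      linarith
    · have h2 : |x - 3 / 4| = 3 / 4 - x := by rw [abs_sub_comm, abs_of_nonneg (by linarith)]
      have h3 := cos_lo3 (x := x) (by rw [h2]; linarith)
      rw [h2] at h3
      linarith
  have h4 : ∫ x in (3 / 4 - ρ / 2)..(3 / 4 + ρ / 2), tf ρ x ≤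
      1 * ((3 / 4 + ρ / 2) - (3 / 4 - ρ / 2)) :=
    tf_int_le (by linarith) fun x _ => tf_le_one ρ x
  have h5 : ∫ x in (3 / 4 + ρ / 2)..(1 : ℝ), tf ρ x ≤ 0 * (1 - (3 / 4 + ρ / 2)) := by
    refine tf_int_le (by linarith) fun x hx => le_of_eq (tf_zero hρ ?_)
    obtain ⟨hx1, hx2⟩ := hx
    have h2 : |x - 3 / 4| = x - 3 / 4 := abs_of_nonneg (by linarith)
    have h3 := cos_lo3 (x := x) (by rw [h2]; linarith)
    rw [h2] at h3
    linarith
  linarith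

theorem pf_CSM (hEQC : T_EQC) : T_CSM := by
  intro ρ hρ hρ4
  obtain ⟨R, hR⟩ := hEQC (tf ρ) (tf_cont ρ) (tf_per ρ) ρ hρ
  refine ⟨R, fun η hη => ?_⟩
  obtain ⟨N₀, hN₀⟩ := hR η hη
  refine ⟨N₀ + 1, fun N hN n θ φ hG => ?_⟩
  have h1 := hN₀ N (by omega) n θ φ hG
  have hNp : (0 : ℝ) < N := by exact_mod_cast (by omega : 0 < N)
  have h2 : (((Ioc n (n + N)).filter fun m : ℕ => |wv n θ φ m| ≤ ρ).card : ℝ) ≤
      ∑ m ∈ Ioc n (n + N), tf ρ (θ * ((m : ℝ) - n) + φ) := by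
    rw [Finset.card_filter, Nat.cast_sum]
    refine Finset.sum_le_sum fun m _ => ?_
    split_ifs with h
    · rw [tf_one hρ h, Nat.cast_one]
    · rw [Nat.cast_zero]
      exact tf_nonneg _ _
  have h3 := (abs_le.1 h1).2
  have h4 := tf_int hρ hρ4
  have h5 : (∑ m ∈ Ioc n (n + N), tf ρ (θ * ((m : ℝ) - n) + φ)) / N ≤ 3 * ρ := by linarith
  rw [div_le_iff₀ hNp] at h5
  have h6 : 3 * ρ * N ≤ 4 * ρ * N := by
    have := mul_pos hρ hNp
    nlinarith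
  linarith

end Pool.Agent.H10.TP
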